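import Mathlib
import Pool.Agent.U479.DD.Near

set_option autoImplicit false

/-!
# Any number of double and simple points may be added to a non-special system

Let `w` be ANY multiplicities at general points of the complex projective plane. Assume that the
points of multiplicity `≥ 3` impose independent conditions on the curves of degree `d - 1`, and that
each of their multiplicities is less than `2 (d + 1) / 3` (or `χ < 3 (d + 1 - w i)`). Then the system
of degree `d` with ALL the points, among them any number of double and simple points, is non-special;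
the only exception is the double `2 C` of a curve `C` which is the only member of its system and
with `χ (2 C) = 0`, as the double line through two points and the double conic through five points.

Hence for `k ≥ 10` points with multiplicities `v i ∈ {m, m + 1}`, `m ≥ 1` arbitrary, and for every
number of further double and simple points, the systems of all degrees are non-special with the
exception of at most three degrees `c`, `c + 1`, `e` which depend on `v` only.
-/

namespace Pool.Agent.Results.MP_d3128a_ag.AnyNumberOfDoublePoints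

open MvPolynomial Pool.Agent Pool.Agent.U479.DD

/-- Forms of degree `d` vanishing to order at least `w i` at the points `(P i 0 : P i 1 : 1)`. -/
noncomputable def forms {n : ℕ} (P : Fin n → Fin 2 → ℂ) (d : ℕ) (w : Fin n → ℕ) :
    Submodule ℂ (MvPolynomial (Fin 3) ℂ) :=
  homogeneousSubmodule (Fin 3) ℂ d ⊓
    Submodule.restrictScalars ℂ
      (⨅ i : Fin n, (Ideal.span {X 0 - C (P i 0) * X 2, X 1 - C (P i 1) * X 2} :
        Ideal (MvPolynomial (Fin 3) ℂ)) ^ (w i))

/-- `χ (d H - ∑ w i E i)` on the blow-up of the plane, the virtual dimension plus one. -/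
def chi {n : ℕ} (d : ℕ) (w : Fin n → ℕ) : ℤ :=
  ((d + 2).choose 2 : ℤ) - ∑ i, ((w i + 1).choose 2 : ℤ)

/-- The property holds for all `n`-tuples of points outside some hypersurface. -/
def ForGeneral {n : ℕ} (p : (Fin n → Fin 2 → ℂ) → Prop) : Prop :=
  ∃ F : MvPolynomial (Fin n × Fin 2) ℂ, F ≠ 0 ∧ ∀ P : Fin n → Fin 2 → ℂ,
    eval (fun ij : Fin n × Fin 2 => P ij.1 ij.2) F ≠ 0 → p P

/-- The system has the expected dimension. -/
def Nonspecial {n : ℕ} (P : Fin n → Fin 2 → ℂ) (d : ℕ) (w : Fin n → ℕ) : Prop :=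
  (Module.finrank ℂ ↥(forms P d w) : ℤ) = max 0 (chi d w)

/-- The points impose independent conditions on the forms of degree `d`. -/
def Independent {n : ℕ} (P : Fin n → Fin 2 → ℂ) (d : ℕ) (w : Fin n → ℕ) : Prop :=
  (Module.finrank ℂ ↥(forms P d w) : ℤ) = chi d w

/-- The multiplicities `≥ 3`; the points of multiplicity `1` and `2` are omitted. -/
def aboveTwo {n : ℕ} (w : Fin n → ℕ) : Fin n → ℕ := fun i => if 3 ≤ w i then w i else 0

/-- The class `(d; w)` has `χ = 0` and is the double of a class `(E; U)`, and for general points each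
of the two systems has exactly one member. -/
def DoubleOfRigid {n : ℕ} (d : ℕ) (w : Fin n → ℕ) : Prop :=
  chi d w = 0 ∧ ∃ (E : ℕ) (U : Fin n → ℕ), d = 2 * E ∧ (∀ i, w i = 2 * U i) ∧
    ForGeneral fun P => Module.finrank ℂ ↥(forms P E U) = 1 ∧ Module.finrank ℂ ↥(forms P d w) = 1

theorem forms_eq {n : ℕ} (P : Fin n → Fin 2 → ℂ) (d : ℕ) (w : Fin n → ℕ) :
    forms P d w = W609.CR.VS (fun j => W609.CR.aff (P j)) w d := by
  rw [W609.CR.vs_eq_forms]
  rfl

theorem chi_eq {n : ℕ} (d : ℕ) (w : Fin n → ℕ) : chi d w = TH167.SH.chi d w := rfl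

theorem general_dim {n : ℕ} (w : Fin n → ℕ) (d : ℕ) {K : Type} [Field K] [CharZero K]
    {P0 : Fin n → Fin 2 → K}
    (hP0 : AlgebraicIndependent ℚ (fun ij : Fin n × Fin 2 => P0 ij.1 ij.2)) :
    ForGeneral fun P => Module.finrank ℂ ↥(forms P d w) =
      Module.finrank K ↥(W609.CR.VS (fun j => W609.CR.aff (P0 j)) w d) := by
  obtain ⟨g, F, hF, hF'⟩ := TH167.SH.dim_gen w d
  refine ⟨F.map (algebraMap ℚ ℂ), H932R3.map_ne_zero_of hF, fun P hP => ?_⟩
  rw [MvPolynomial.eval_map] at hP
  have h1 := hF' ℂ P hP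
  have h2 := hF' K P0 fun h => hF (hP0.eq_zero_of_aeval_eq_zero F h)
  rw [forms_eq, h1, h2]

theorem ForGeneral.and {n : ℕ} {p q : (Fin n → Fin 2 → ℂ) → Prop} (hp : ForGeneral p)
    (hq : ForGeneral q) : ForGeneral fun P => p P ∧ q P := by
  obtain ⟨F, hF, hF'⟩ := hp
  obtain ⟨G, hG, hG'⟩ := hq
  refine ⟨F * G, mul_ne_zero hF hG, fun P hP => ?_⟩
  rw [map_mul] at hP
  exact ⟨hF' P (left_ne_zero_of_mul hP), hG' P (right_ne_zero_of_mul hP)⟩

theorem ForGeneral.mono {n : ℕ} {p q : (Fin n → Fin 2 → ℂ) → Prop} (hp : ForGeneral p)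
    (h : ∀ P, p P → q P) : ForGeneral q := by
  obtain ⟨F, hF, hF'⟩ := hp
  exact ⟨F, hF, fun P hP => h P (hF' P hP)⟩

theorem ForGeneral.exists {n : ℕ} {p : (Fin n → Fin 2 → ℂ) → Prop} (hp : ForGeneral p) :
    ∃ P, p P := by
  obtain ⟨F, hF, hF'⟩ := hp
  by_contra hcon
  push Not at hcon
  apply hF
  apply MvPolynomial.funext
  intro x
  rw [map_zero]
  by_contra hx
  exact hcon (fun i j => x (i, j)) (hF' _ hx)

theorem result :
    (∀ (n d : ℕ) (w : Fin n → ℕ), (ForGeneral fun P => Independent P d (aboveTwo w)) →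
      (∀ i, 3 ≤ w i → 3 * w i < 2 * (d + 2) ∨
        chi (d + 1) (aboveTwo w) < 3 * ((d : ℤ) + 2 - w i)) →
      (ForGeneral fun P => Nonspecial P (d + 1) w) ∨ DoubleOfRigid (d + 1) w) ∧
    (∀ (k m : ℕ) (v : Fin k → ℕ), 10 ≤ k → 1 ≤ m → (∀ i, v i = m ∨ v i = m + 1) →
      ∃ c e : ℕ, ∀ d : ℕ, d ≠ c → d ≠ c + 1 → d ≠ e → ∀ (j : ℕ) (u : Fin j → ℕ), (∀ i, u i ≤ 2) →
        ForGeneral fun P => Nonspecial P d (Fin.append v u)) := by
  classical
  refine ⟨fun n d w hind hw => ?_, fun k m v hk hm hv => ?_⟩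
  · obtain ⟨K, i1, i2, P0, hP0⟩ := TH167.SH.exists_generic n
    have hlow : low w (Finset.univ.filter fun i => 3 ≤ w i) = aboveTwo w := by
      funext i
      unfold low aboveTwo
      by_cases hi : 3 ≤ w i
      · rw [if_pos (by simp [hi]), if_pos hi]
      · rw [if_neg (by simp [hi]), if_neg hi]
    obtain ⟨P, hP1, hP2⟩ := (hind.and (general_dim (aboveTwo w) d hP0)).exists
    have h1 : (Module.finrank ℂ ↥(forms P d (aboveTwo w)) : ℤ) = chi d (aboveTwo w) := hP1
    rw [hP2, chi_eq, TH167.SH.chi_cast] at h1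
    have h2 := fin_main hP0 (w := w) (S := Finset.univ.filter fun i => 3 ≤ w i) (d := d)
      (fun j hj => by
        rw [Finset.mem_filter] at hj
        by_contra h
        exact hj ⟨Finset.mem_univ _, by omega⟩) (by rw [hlow]; omega) (fun j hj => by
        rw [hlow]
        exact hw j (Finset.mem_filter.1 hj).2)
    rcases h2 with h2 | ⟨h2, h3, E, U, h4, h5, h6⟩
    · left
      refine (general_dim w (d + 1) hP0).mono fun P hP => ?_
      unfold Nonspecial
      rw [hP, h2, chi_eq]
    · right
      refine ⟨h3, E, U, h4, h5, ?_⟩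
      refine ((general_dim U E hP0).and (general_dim w (d + 1) hP0)).mono fun P hP => ?_
      rw [hP.1, hP.2]
      exact ⟨h6, h2⟩
  · obtain ⟨c, e, hce⟩ := near_all hk hm hv
    refine ⟨c, e, fun d h1 h2 h3 j u hu => ?_⟩
    obtain ⟨K, i1, i2, P0, hP0⟩ := TH167.SH.exists_generic (k + j)
    have h4 := hce d h1 h2 h3 (Fin.castAddEmb j) (w := Fin.append v u) (fun i => by
      rw [show Fin.castAddEmb j i = Fin.castAdd j i from rfl, Fin.append_left]) (by
      intro i
      refine Fin.addCases (fun l => ?_) (fun l => ?_) i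
      · intro h
        exact absurd (Finset.mem_map.2 ⟨l, Finset.mem_univ _, rfl⟩) h
      · intro _
        rw [Fin.append_right]
        exact hu l) hP0
    have h5 := (TH442.NF.expDim_iff P0 d _).1 h4
    refine (general_dim (Fin.append v u) d hP0).mono fun P hP => ?_
    unfold Nonspecial
    rw [hP, h5, chi_eq]

end Pool.Agent.Results.MP_d3128a_ag.AnyNumberOfDoublePoints
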