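import Mathlib
import Pool.Agent.U605.ST.Fixed

set_option autoImplicit false

/-!
# Every tail of multiplicities below `(3 √n - 5) / 2`, the other `n` multiplicities large and equal

Let `n ≥ 36`, and let `t 1, …, t k` be ANY natural numbers with `t j ≤ T`, where `2 T + 5 < 3 √n`. For
all `M` with

* `n + 3 √n (2 ∑ (t j) ^ 2 / T + T + 1) ≤ (3 √n - 5 - 2 T) M`,
* `n / 4 + ∑ t j (t j + 1) ≤ (√n - 5) M`

(so for all sufficiently large `M`) and for every number `p` of simple points, the systems of plane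
curves of degree `d` with `n` points of multiplicity `M`, `k` points of the multiplicities `t j` and
`p` simple points, all of them general, are non-special for EVERY `d` (in particular for all
`d ≥ m₁ + m₂ + m₃`).
-/

namespace Pool.Agent.Results.MP_d3128a_ag.FixedTail

open MvPolynomial

/-- Forms of degree `d` vanishing to order at least `w i` at the points `(P i 0 : P i 1 : 1)`. -/
noncomputable def forms {s : ℕ} (P : Fin s → Fin 2 → ℂ) (d : ℕ) (w : Fin s → ℕ) :
    Submodule ℂ (MvPolynomial (Fin 3) ℂ) :=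
  homogeneousSubmodule (Fin 3) ℂ d ⊓
    Submodule.restrictScalars ℂ
      (⨅ i : Fin s, (Ideal.span {X 0 - C (P i 0) * X 2, X 1 - C (P i 1) * X 2} :
        Ideal (MvPolynomial (Fin 3) ℂ)) ^ (w i))

/-- For general points (one nonempty open set for all degrees) the systems of curves with the
multiplicities `w` are non-special in every degree. -/
def NonSpecial {s : ℕ} (w : Fin s → ℕ) : Prop :=
  ∃ F : MvPolynomial (Fin s × Fin 2) ℂ, F ≠ 0 ∧ ∀ P : Fin s → Fin 2 → ℂ,
    MvPolynomial.eval (fun ij : Fin s × Fin 2 => P ij.1 ij.2) F ≠ 0 →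
    ∀ d : ℕ, (Module.finrank ℂ ↥(forms P d w) : ℤ) - 1 =
      max (((d + 2).choose 2 : ℤ) - 1 - ∑ i, ((w i + 1).choose 2 : ℤ)) (-1)

/-- The multiplicities: `n` times `M`, then the tail `t`, then `p` times `1`. -/
def mult (n k p M : ℕ) (t : Fin k → ℕ) : Fin (n + k + p) → ℕ :=
  Fin.append (Fin.append (fun _ : Fin n => M) t) (fun _ : Fin p => 1)

theorem result (n k p M T : ℕ) (t : Fin k → ℕ) (hn : 36 ≤ n) (hT : 1 ≤ T) (ht : ∀ j, t j ≤ T)
    (hgap : 2 * (T : ℝ) + 5 < 3 * √(n : ℝ))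
    (h1 : (n : ℝ) + 3 * √(n : ℝ) * (2 * (∑ j, (t j : ℝ) ^ 2) / T + T + 1) ≤
      (3 * √(n : ℝ) - 5 - 2 * T) * M)
    (h2 : (n : ℝ) / 4 + ∑ j, (t j : ℝ) * (t j + 1) ≤ (√(n : ℝ) - 5) * M) :
    NonSpecial (mult n k p M t) := by
  have hES := Pool.Agent.U605.ST.ES_fixed (w := t) (n := n) (m := M) hn hT ht hgap h1 h2
  let e : (Fin n ⊕ Fin k) ⊕ Fin p ≃ Fin (n + k + p) :=
    (Equiv.sumCongr finSumFinEquiv (Equiv.refl (Fin p))).trans finSumFinEquiv
  have he : ∀ i, mult n k p M t (e i) =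
      Sum.elim (Sum.elim (fun _ : Fin n => M) t) (fun _ : Fin p => 1) i := by
    rintro ((i | i) | i)
    · simp [e, mult, Fin.append_left]
    · simp [e, mult, Fin.append_left, Fin.append_right]
    · simp [e, mult, Fin.append_right]
  obtain ⟨F, hF, hF'⟩ := Pool.Agent.U605.ST.expDim_equiv e (mult n k p M t) he hES
  refine ⟨F.map (algebraMap ℚ ℂ), Pool.Agent.H932R3.map_ne_zero_of hF, fun P hP d => ?_⟩
  rw [MvPolynomial.eval_map] at hP
  have h1 := hF' P hP d
  unfold Pool.Agent.H932R3.ExpDim at h1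
  unfold forms
  rw [h1]
  have e : ∑ i, ((mult n k p M t i + 1).choose 2 : ℤ) =
      ((∑ i, (mult n k p M t i + 1).choose 2 : ℕ) : ℤ) := by
    push_cast
    rfl
  rw [e]
  omega

end Pool.Agent.Results.MP_d3128a_ag.FixedTail
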