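import Mathlib
import Pool.Agent.U390.NT.Base

set_option autoImplicit false

/-!
# Non-speciality in every degree: nearly equal multiplicities and any tail bounded by `n / 24`

Let `n`, `T ≥ 1` be natural numbers with `24 T + 16 √n / 3 + 95 ≤ n`, let `t 1, …, t k` be ANY natural
numbers with `t j ≤ T`, and let `u 1, …, u n` be `m` or `m + 1`, in any proportion, where `n ≤ 2 m` and
`∑ (t j) ^ 2 + T ^ 2 ≤ T m` (so `m` may be any sufficiently large number). For every number `p` of
simple points the systems of plane curves of degree `d` with the multiplicities `u i`, `t j` and `p`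
simple points, all of them general, are non-special for EVERY `d` (in particular for all
`d ≥ m₁ + m₂ + m₃`). If all `u i` are equal, `n ≥ 149` and `8 T + 8 √n / 3 + 29 ≤ n` suffice.
-/

namespace Pool.Agent.Results.MP_d3128a_ag.NearlyEqualTail

open MvPolynomial

/-- Forms of degree `d` vanishing to order at least `w i` at the points `(P i 0 : P i 1 : 1)`. -/
noncomputable def forms {s : ℕ} (P : Fin s → Fin 2 → ℂ) (d : ℕ) (w : Fin s → ℕ) :
    Submodule ℂ (MvPolynomial (Fin 3) ℂ) :=
  homogeneousSubmodule (Fin 3) ℂ d ⊓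
    Submodule.restrictScalars ℂ
      (⨅ i : Fin s, (Ideal.span {X 0 - C (P i 0) * X 2, X 1 - C (P i 1) * X 2} :
        Ideal (MvPolynomial (Fin 3) ℂ)) ^ (w i))

/-- For general points (one nonempty open set for all degrees) the systems of curves with the
multiplicities `w` are non-special in every degree. -/
def NonSpecial {s : ℕ} (w : Fin s → ℕ) : Prop :=
  ∃ F : MvPolynomial (Fin s × Fin 2) ℂ, F ≠ 0 ∧ ∀ P : Fin s → Fin 2 → ℂ,
    MvPolynomial.eval (fun ij : Fin s × Fin 2 => P ij.1 ij.2) F ≠ 0 →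
    ∀ d : ℕ, (Module.finrank ℂ ↥(forms P d w) : ℤ) - 1 =
      max (((d + 2).choose 2 : ℤ) - 1 - ∑ i, ((w i + 1).choose 2 : ℤ)) (-1)

/-- The multiplicities: `u`, then the tail `t`, then `p` times `1`. -/
def mult {n k : ℕ} (u : Fin n → ℕ) (t : Fin k → ℕ) (p : ℕ) : Fin (n + k + p) → ℕ :=
  Fin.append (Fin.append u t) (fun _ : Fin p => 1)

theorem result (n k p m T : ℕ) (u : Fin n → ℕ) (t : Fin k → ℕ) (hT : 1 ≤ T) (ht : ∀ j, t j ≤ T)
    (hnm : n ≤ 2 * m)
    (hu : ((∀ i, u i = m ∨ u i = m + 1) ∧ 24 * (T : ℝ) + 16 * √(n : ℝ) / 3 + 95 ≤ n) ∨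
      ((∀ i, u i = m) ∧ 149 ≤ n ∧ 8 * (T : ℝ) + 8 * √(n : ℝ) / 3 + 29 ≤ n))
    (hsq : ∑ j, t j ^ 2 + T ^ 2 ≤ T * m) :
    NonSpecial (mult u t p) := by
  classical
  let S : Finset (Fin (n + k + p)) :=
    (Finset.univ : Finset (Fin n)).map ((Fin.castAddEmb k).trans (Fin.castAddEmb p))
  have hcard : S.card = n := by
    rw [Finset.card_map, Finset.card_univ, Fintype.card_fin]
  have hu' : ∀ i, mult u t p (Fin.castAdd p (Fin.castAdd k i)) = u i := fun i => by
    rw [mult, Fin.append_left, Fin.append_left]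
  have ht' : ∀ j, mult u t p (Fin.castAdd p (Fin.natAdd n j)) = t j := fun j => by
    rw [mult, Fin.append_left, Fin.append_right]
  have hp' : ∀ i, mult u t p (Fin.natAdd (n + k) i) = 1 := fun i => by
    rw [mult, Fin.append_right]
  have hmem : ∀ i, Fin.castAdd p (Fin.castAdd k i) ∈ S := fun i =>
    Finset.mem_map_of_mem ((Fin.castAddEmb k).trans (Fin.castAddEmb p)) (Finset.mem_univ i)
  have hS : ∀ (q : ℕ → Prop), (∀ i, q (u i)) → ∀ i ∈ S, q (mult u t p i) := by
    intro q hq i hi
    obtain ⟨a, -, rfl⟩ := Finset.mem_map.1 hi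
    have := hu' a
    exact this ▸ hq a
  have hB : Pool.Agent.U390.NT.Base (mult u t p) := by
    refine ⟨S, m, T, by rw [hcard]; exact hnm, ?_, ?_, ?_⟩
    · rw [hcard]
      rcases hu with ⟨h1, h2⟩ | ⟨h1, h2, h3⟩
      · exact Or.inl ⟨hS (fun x => x = m ∨ x = m + 1) h1, h2⟩
      · exact Or.inr ⟨hS (fun x => x = m) h1, h2, h3⟩
    · intro j
      refine Fin.addCases (fun i => ?_) (fun i => ?_) j
      · refine Fin.addCases (fun i => ?_) (fun i => ?_) i
        · intro h
          exact absurd (hmem i) h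
        · intro _
          rw [ht']
          exact ht i
      · intro _
        rw [hp']
        exact hT
    · refine le_trans (Nat.add_le_add_right ?_ _) hsq
      rw [Finset.sum_filter, Fin.sum_univ_add, Fin.sum_univ_add]
      have e1 : ∑ i : Fin n, (if Fin.castAdd p (Fin.castAdd k i) ∉ S ∧
          2 ≤ mult u t p (Fin.castAdd p (Fin.castAdd k i)) then
          mult u t p (Fin.castAdd p (Fin.castAdd k i)) ^ 2 else 0) = 0 :=
        Finset.sum_eq_zero fun i _ => by
          rw [if_neg]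
          rintro ⟨h, -⟩
          exact h (hmem i)
      have e2 : ∑ i : Fin p, (if Fin.natAdd (n + k) i ∉ S ∧
          2 ≤ mult u t p (Fin.natAdd (n + k) i) then
          mult u t p (Fin.natAdd (n + k) i) ^ 2 else 0) = 0 :=
        Finset.sum_eq_zero fun i _ => by
          rw [if_neg]
          rintro ⟨-, h⟩
          rw [hp'] at h
          omega
      rw [e1, e2, zero_add, add_zero]
      refine Finset.sum_le_sum fun j _ => ?_
      split_ifs
      · rw [ht']
      · exact Nat.zero_le _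
  obtain ⟨F, hF, hF'⟩ := Pool.Agent.U390.NT.base_exp hB
  refine ⟨F.map (algebraMap ℚ ℂ), Pool.Agent.H932R3.map_ne_zero_of hF, fun P hP d => ?_⟩
  rw [MvPolynomial.eval_map] at hP
  have h1 := hF' P hP d
  unfold Pool.Agent.H932R3.ExpDim at h1
  unfold forms
  rw [h1]
  have e : ∑ i, ((mult u t p i + 1).choose 2 : ℤ) =
      ((∑ i, (mult u t p i + 1).choose 2 : ℕ) : ℤ) := by
    push_cast
    rfl
  rw [e]
  omega

end Pool.Agent.Results.MP_d3128a_ag.NearlyEqualTail
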